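import Mathlib
import Pool.Agent.H892.KT.EN

set_option autoImplicit false

open Filter Topology Set

namespace Pool.Agent.H801.KT

open Pool.Agent.H892.KT

/-- Taylor expansion with bounds -/
theorem taylor {f : ℂ → ℂ} {ρ : ℝ} (hρ : 0 < ρ) (hf : DifferentiableOn ℂ f (Metric.ball 0 ρ))
    (h0 : f 0 = 0) : ∃ (a : ℕ → ℂ) (C : ℝ), 0 ≤ C ∧ a 0 = 0 ∧
      (∀ k, ‖a k‖ ≤ C * (4 / ρ) ^ k) ∧
      ∀ z ∈ Metric.ball (0 : ℂ) (ρ / 2), HasSum (fun k => a k * z ^ k) (f z) := by
  set s : NNReal := ⟨ρ / 2, by positivity⟩ with hs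
  set t : NNReal := ⟨ρ / 4, by positivity⟩ with ht
  have hs0 : 0 < s := by
    rw [← NNReal.coe_pos]
    show 0 < ρ / 2
    positivity
  have ht0 : 0 < t := by
    rw [← NNReal.coe_pos]
    show 0 < ρ / 4
    positivity
  have hts : t < s := by
    rw [← NNReal.coe_lt_coe]
    show ρ / 4 < ρ / 2
    linarith
  have hd : DifferentiableOn ℂ f (Metric.closedBall 0 s) := by
    refine hf.mono (Metric.closedBall_subset_ball ?_)
    show ρ / 2 < ρ
    linarith
  have hp := hd.hasFPowerSeriesOnBall hs0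
  set P := cauchyPowerSeries f 0 s with hP
  have hrad : (t : ENNReal) < P.radius :=
    lt_of_lt_of_le (by exact_mod_cast hts) hp.r_le
  obtain ⟨C, hC, hb⟩ := P.norm_le_div_pow_of_pos_of_lt_radius ht0 hrad
  have hsum : ∀ z ∈ Metric.ball (0 : ℂ) (ρ / 2), HasSum (fun k => P.coeff k * z ^ k) (f z) := by
    intro z hz
    have hz' : z ∈ Metric.eball (0 : ℂ) s := by
      rw [Metric.eball_coe]
      exact hz
    have h1 := hp.hasSum hz'
    rw [zero_add] at h1
    have h2 : (fun k => P.coeff k * z ^ k) = fun k => P k fun _ => z := by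
      funext k
      rw [FormalMultilinearSeries.apply_eq_pow_smul_coeff, smul_eq_mul, mul_comm]
    rw [h2]
    exact h1
  refine ⟨fun k => P.coeff k, C, hC.le, ?_, ?_, hsum⟩
  · have h1 := hsum 0 (Metric.mem_ball_self (by positivity))
    have h2 : HasSum (fun k => P.coeff k * (0 : ℂ) ^ k) (P.coeff 0) := by
      have h3 := hasSum_single (f := fun k => P.coeff k * (0 : ℂ) ^ k) 0 (by
        intro k hk
        show P.coeff k * (0 : ℂ) ^ k = 0
        rw [zero_pow hk, mul_zero])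
      simpa using h3
    exact (h2.unique h1).trans h0
  · intro k
    have h1 := hb k
    rw [FormalMultilinearSeries.norm_apply_eq_norm_coef] at h1
    refine h1.trans (le_of_eq ?_)
    show C / (ρ / 4) ^ k = C * (4 / ρ) ^ k
    rw [div_eq_mul_inv, ← inv_pow, inv_div]

/-- power series with geometrically bounded coefficients -/
theorem series {b : ℕ → ℂ} {C R δ : ℝ} (hR : 0 < R) (hδ : δ ≤ 1 / (2 * R))
    (hb : ∀ k, ‖b k‖ ≤ C * R ^ k) (h0 : b 0 = 0) (h1 : b 1 = 0) :
    DifferentiableOn ℂ (fun z => ∑' k, b k * z ^ k) (Metric.ball 0 δ) ∧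
    (∀ z ∈ Metric.ball (0 : ℂ) δ, HasSum (fun k => b k * z ^ k) (∑' k, b k * z ^ k)) ∧
    (∑' k, b k * (0 : ℂ) ^ k) = 0 ∧
    (0 < δ → deriv (fun z => ∑' k, b k * z ^ k) 0 = 0) := by
  have hC : 0 ≤ C := by
    have := hb 0
    rw [pow_zero, mul_one] at this
    exact (norm_nonneg _).trans this
  have hu : Summable (fun k : ℕ => C * (1 / 2 : ℝ) ^ k) :=
    (summable_geometric_of_lt_one (by norm_num) (by norm_num)).mul_left C
  have hle : ∀ (k : ℕ) (w : ℂ), w ∈ Metric.ball (0 : ℂ) δ →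
      ‖b k * w ^ k‖ ≤ C * (1 / 2 : ℝ) ^ k := by
    intro k w hw
    have hw1 : ‖w‖ < δ := by simpa using hw
    have hw2 : R * ‖w‖ ≤ 1 / 2 := by
      have h3 : ‖w‖ ≤ 1 / (2 * R) := hw1.le.trans hδ
      have h4 := mul_le_mul_of_nonneg_left h3 hR.le
      have h5 : R * (1 / (2 * R)) = 1 / 2 := by field_simp
      linarith
    rw [norm_mul, norm_pow]
    calc ‖b k‖ * ‖w‖ ^ k ≤ (C * R ^ k) * ‖w‖ ^ k :=
          mul_le_mul_of_nonneg_right (hb k) (pow_nonneg (norm_nonneg _) _)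
      _ = C * (R * ‖w‖) ^ k := by rw [mul_pow]; ring
      _ ≤ C * (1 / 2 : ℝ) ^ k := mul_le_mul_of_nonneg_left
          (pow_le_pow_left₀ (mul_nonneg hR.le (norm_nonneg _)) hw2 k) hC
  have hdiff : ∀ k : ℕ, DifferentiableOn ℂ (fun z : ℂ => b k * z ^ k) (Metric.ball 0 δ) :=
    fun k => ((differentiable_id.pow k).const_mul (b k)).differentiableOn
  refine ⟨Complex.differentiableOn_tsum_of_summable_norm hu hdiff Metric.isOpen_ball hle,
    fun z hz => (Summable.of_norm_bounded hu (fun k => hle k z hz)).hasSum, ?_, fun hδ0 => ?_⟩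
  · have h3 := hasSum_single (f := fun k => b k * (0 : ℂ) ^ k) 0 (by
      intro k hk
      show b k * (0 : ℂ) ^ k = 0
      rw [zero_pow hk, mul_zero])
    rw [h3.tsum_eq]
    show b 0 * (0 : ℂ) ^ 0 = 0
    rw [h0, zero_mul]
  · have h3 := Complex.hasSum_deriv_of_summable_norm hu hdiff Metric.isOpen_ball hle
      (Metric.mem_ball_self hδ0)
    have h4 : (fun k : ℕ => deriv (fun z : ℂ => b k * z ^ k) 0) = fun _ => 0 := by
      funext k
      rw [deriv_const_mul_field, deriv_pow_field]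
      rcases k with _ | _ | k
      · simp
      · rw [zero_add, h1, zero_mul]
      · simp
    rw [h4] at h3
    exact h3.unique hasSum_zero

theorem t_QF (h1 : S_QSEQ) : S_QF := by
  intro n _ c τ r ρ hc hτ0 hτ hρ hr hr0
  choose a C hC0 ha0 hab hsum using fun i => taylor hρ (hr i) (hr0 i)
  set Cs : ℝ := ∑ i : ZMod n, C i with hCs
  have hCi : ∀ i, C i ≤ Cs := fun i =>
    Finset.single_le_sum (f := fun i => C i) (fun j _ => hC0 j) (Finset.mem_univ i)
  have hCs0 : 0 ≤ Cs := Finset.sum_nonneg fun j _ => hC0 j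
  set R : ℝ := max 1 (4 / ρ) with hR
  have hR1 : 1 ≤ R := le_max_left _ _
  have hR4 : 4 / ρ ≤ R := le_max_right _ _
  obtain ⟨q, C', hq, hrec⟩ := h1 n c τ a Cs R hc hτ hCs0 hR1 (fun i k => by
    refine (hab i k).trans ?_
    exact mul_le_mul (hCi i) (pow_le_pow_left₀ (by positivity) hR4 k) (by positivity) hCs0)
  have hC' : 0 ≤ C' := by
    have := hq 0 0
    rw [pow_zero, mul_one] at this
    exact (norm_nonneg _).trans this
  set b : ZMod n → ℕ → ℂ := fun i k => if k < 2 then 0 else q i k with hb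
  have hb0 : ∀ i, b i 0 = 0 := fun i => if_pos (by norm_num)
  have hb1 : ∀ i, b i 1 = 0 := fun i => if_pos (by norm_num)
  have hb2 : ∀ i k, b i (k + 2) = q i (k + 2) := fun i k => if_neg (by omega)
  have hbb : ∀ i k, ‖b i k‖ ≤ C' * R ^ k := by
    intro i k
    by_cases hk : k < 2
    · rw [show b i k = 0 from if_pos hk, norm_zero]
      positivity
    · rw [show b i k = q i k from if_neg hk]
      exact hq i k
  set δ : ℝ := min (ρ / 2) (1 / (2 * R)) with hδ
  have hR0 : 0 < R := by linarith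
  have hδ0 : 0 < δ := lt_min (by positivity) (by positivity)
  have hδρ : δ ≤ ρ / 2 := min_le_left _ _
  have hδR : δ ≤ 1 / (2 * R) := min_le_right _ _
  refine ⟨δ, fun i z => ∑' k, b i k * z ^ k, fun i => a i 1 + τ * b (i + 1) 2, hδ0,
    by linarith, fun i => (series hR0 hδR (hbb i) (hb0 i) (hb1 i)).1,
    fun i => (series hR0 hδR (hbb i) (hb0 i) (hb1 i)).2.2.1,
    fun i => (series hR0 hδR (hbb i) (hb0 i) (hb1 i)).2.2.2 hδ0, ?_⟩
  intro i z hz
  have hz1 : ‖z‖ < δ := by simpa using hz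
  have hτz : τ * z ∈ Metric.ball (0 : ℂ) δ := by
    rw [mem_ball_zero_iff, norm_mul]
    have : ‖τ‖ * ‖z‖ ≤ 1 * ‖z‖ := mul_le_mul_of_nonneg_right hτ.le (norm_nonneg _)
    linarith
  have s1 := (series hR0 hδR (hbb (i + 1)) (hb0 _) (hb1 _)).2.1 (τ * z) hτz
  have s2 := hsum i z (Metric.ball_subset_ball hδρ hz)
  have s3 := (series hR0 hδR (hbb i) (hb0 _) (hb1 _)).2.1 z hz
  have t1 : HasSum (fun k => b (i + 1) (k + 1) * (τ * z) ^ (k + 1))
      (∑' k, b (i + 1) k * (τ * z) ^ k) := by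
    have h2 := (hasSum_nat_add_iff' 1).2 s1
    rw [Finset.sum_range_one, hb0, zero_mul, sub_zero] at h2
    exact h2
  have t2 : HasSum (fun k => τ * z * (a i k * z ^ k)) (τ * z * r i z) := s2.mul_left _
  have t3 : HasSum (fun k => τ * z * (c i * (b i k * z ^ k)))
      (τ * z * (c i * ∑' k, b i k * z ^ k)) := (s3.mul_left _).mul_left _
  have t4 : HasSum (fun k : ℕ => if k = 1 then τ * z * ((a i 1 + τ * b (i + 1) 2) * z) else 0)
      (τ * z * ((a i 1 + τ * b (i + 1) 2) * z)) :=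
    hasSum_ite_eq 1 _
  have t5 := t1.add t2
  have t6 := t3.add t4
  have e : (fun k => b (i + 1) (k + 1) * (τ * z) ^ (k + 1) + τ * z * (a i k * z ^ k)) =
      fun k => τ * z * (c i * (b i k * z ^ k)) +
        if k = 1 then τ * z * ((a i 1 + τ * b (i + 1) 2) * z) else 0 := by
    funext k
    rcases k with _ | _ | k
    · rw [if_neg (by norm_num), zero_add, hb1, hb0, ha0]
      ring
    · rw [if_pos rfl, zero_add, hb1]
      ring
    · have h3 := hrec i (k + 2)
      have h4 : b (i + 1) (k + 1 + 1 + 1) = q (i + 1) (k + 2 + 1) := hb2 (i + 1) (k + 1)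
      have h7 : b i (k + 1 + 1) = q i (k + 2) := hb2 i k
      rw [if_neg (by omega), h4, h7, add_zero, show k + 1 + 1 = k + 2 from rfl]
      have h5 : τ * z * (c i * (q i (k + 2) * z ^ (k + 2))) =
          τ * z * ((c i * q i (k + 2)) * z ^ (k + 2)) := by ring
      rw [h5, h3]
      ring
  rw [e] at t5
  have h6 := t5.unique t6
  show (∑' k, b (i + 1) k * (τ * z) ^ k) + τ * z * r i z =
    τ * z * (c i * (∑' k, b i k * z ^ k) + (a i 1 + τ * b (i + 1) 2) * z)
  rw [h6]
  ring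

end Pool.Agent.H801.KT
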